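import Mathlib
import Pool.Agent.N681.DC.GLUE
import Pool.Agent.U424.DQ.Stm

/-! Part GLUEG of project DQ (helper424): the local points are replaced by one integral point, for an
arbitrary finite index type and an arbitrary type of conditions. -/

set_option autoImplicit false
set_option linter.all false

namespace Pool.Agent.U863.DQ

open Finset Pool.Agent.N718.DC Pool.Agent.U424.DQ
open Pool.Agent.N546.PN (Typ)
open Pool.Agent.N681.DC (fm_smul fm_cast fm_modEq fm_zero norm_int_le sq_close crt)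

variable {ι : Type} {e : ι → ℕ}

/-- `PSG` is transferred when all the values are multiplied by nonzero squares. -/
theorem psg_tr (T : Typ ι e) (c c' : (k : ι) → Fin (e k + 2) → ℤ) {K : Type} [Field K]
    (x y x' y' : K) (h : PSG T c x y) (z : ι → K) (hz : ∀ k, z k ≠ 0)
    (hv : ∀ k, fmv (c' k) x' y' = fmv (c k) x y * z k ^ 2) : PSG T c' x' y' := by
  refine ⟨fun k => ?_, ?_⟩
  · rw [hv k]
    exact mul_ne_zero (h.1 k) (pow_ne_zero _ (hz k))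
  · have h1 := T.sq K (fun k => fmv (c k) x y) z hz h.2
    have h2 : (fun k => fmv (c' k) x' y') = fun k => fmv (c k) x y * z k ^ 2 := funext hv
    rw [h2]
    exact h1

/-- Scaling of the point. -/
theorem psg_smul (T : Typ ι e) (c : (k : ι) → Fin (e k + 2) → ℤ) {K : Type} [Field K] (x y l : K)
    (hl : l ≠ 0) (h : PSG T c x y) : PSG T c (l * x) (l * y) := by
  have h0 : ∀ k, fmv (c k) (l * x) (l * y) = l ^ (e k + 1) * fmv (c k) x y := by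
    intro k
    unfold fmv
    rw [fm_smul]
  refine ⟨fun k => ?_, ?_⟩
  · rw [h0 k]
    exact mul_ne_zero (pow_ne_zero _ hl) (h.1 k)
  · have h1 := T.sc K (fun k => fmv (c k) x y) l hl h.2
    have h2 : (fun k => fmv (c k) (l * x) (l * y)) = fun k => l ^ (e k + 1) * fmv (c k) x y :=
      funext h0
    rw [h2]
    exact h1

/-- A local point is replaced by a primitive one. -/
theorem psg_norm (T : Typ ι e) (c : (k : ι) → Fin (e k + 2) → ℤ) {p : ℕ} [Fact p.Prime]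
    (x y : ℚ_[p]) (h : PSG T c x y) : ∃ x' y' : ℚ_[p], max ‖x'‖ ‖y'‖ = 1 ∧ PSG T c x' y' := by
  by_cases h0 : x = 0 ∧ y = 0
  · obtain ⟨rfl, rfl⟩ := h0
    have hE : ∀ k : ι, False := fun k => absurd (fm_zero _) (h.1 k)
    refine ⟨1, 0, by simp, ⟨fun k => (hE k).elim, ?_⟩⟩
    have h2 : (fun k => fmv (c k) (1 : ℚ_[p]) 0) = fun k => fmv (c k) (0 : ℚ_[p]) 0 :=
      funext fun k => (hE k).elim
    rw [h2]
    exact h.2
  · rcases le_total ‖x‖ ‖y‖ with hxy | hxy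
    · have hy : y ≠ 0 := by
        rintro rfl
        apply h0
        refine ⟨?_, rfl⟩
        rw [norm_zero] at hxy
        exact norm_le_zero_iff.1 hxy
      have hy' : 0 < ‖y‖ := norm_pos_iff.2 hy
      refine ⟨y⁻¹ * x, y⁻¹ * y, ?_, psg_smul T c x y _ (inv_ne_zero hy) h⟩
      rw [inv_mul_cancel₀ hy, norm_one, norm_mul, norm_inv]
      apply max_eq_right
      rw [← div_eq_inv_mul]
      exact (div_le_one hy').2 hxy
    · have hx : x ≠ 0 := by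
        rintro rfl
        apply h0
        refine ⟨rfl, ?_⟩
        rw [norm_zero] at hxy
        exact norm_le_zero_iff.1 hxy
      have hx' : 0 < ‖x‖ := norm_pos_iff.2 hx
      refine ⟨x⁻¹ * x, x⁻¹ * y, ?_, psg_smul T c x y _ (inv_ne_zero hx) h⟩
      rw [inv_mul_cancel₀ hx, norm_one, norm_mul, norm_inv]
      apply max_eq_left
      rw [← div_eq_inv_mul]
      exact (div_le_one hx').2 hxy

open Classical in
theorem glueg_ (h : S_PADT) : S_GLUEG := by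
  intro ι _ _ e T U S N W n M hM hS hN c hbad hloc X Y hXY
  -- the local integral points
  have h1 : ∀ p : Nat.Primes, (p : ℕ) ≤ W → ∃ b₀ b₁ : ℤ,
      (p ∈ S → ‖X p - (b₀ : ℚ_[(p : ℕ)])‖ ≤ (((p : ℕ) : ℝ) ^ N)⁻¹ ∧
        ‖Y p - (b₁ : ℚ_[(p : ℕ)])‖ ≤ (((p : ℕ) : ℝ) ^ N)⁻¹) ∧
      (∀ k, ¬ (((p : ℕ) : ℤ) ^ (3 * n p + 12) ∣ fm (c k) b₀ b₁)) ∧
      PSG T c ((b₀ : ℤ) : ℚ_[(p : ℕ)]) ((b₁ : ℤ) : ℚ_[(p : ℕ)]) := by
    intro p hp
    have h2 : ∃ x y : ℚ_[(p : ℕ)], max ‖x‖ ‖y‖ = 1 ∧ PSG T c x y ∧ (p ∈ S → x = X p ∧ y = Y p) := by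
      by_cases hpS : p ∈ S
      · exact ⟨X p, Y p, (hXY p hpS).1, (hXY p hpS).2, fun _ => ⟨rfl, rfl⟩⟩
      · obtain ⟨x, y, hxy⟩ := hloc.2 p
        obtain ⟨x', y', h3, h4⟩ := psg_norm T c x y hxy
        exact ⟨x', y', h3, h4, fun hh => absurd hh hpS⟩
    obtain ⟨x, y, h3, h4, h5⟩ := h2
    obtain ⟨b₀, b₁, h6, h7, h8, h9⟩ := h _ e (p : ℕ) N (n p) (hN p) c (hbad p p.2 hp) x y h3 h4.1
    refine ⟨b₀, b₁, fun hpS => ?_, h8, ?_⟩
    · obtain ⟨hx, hy⟩ := h5 hpS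
      rw [← hx, ← hy]
      exact ⟨h6, h7⟩
    · choose z hz hz' using h9
      refine psg_tr T c c x y _ _ h4 (fun k => (z k)⁻¹) (fun k => inv_ne_zero (hz k)) fun k => ?_
      rw [fm_cast, hz' k]
      have := hz k
      field_simp
  have h1' : ∀ p : Nat.Primes, ∃ b : ℤ × ℤ, (p : ℕ) ≤ W →
      (p ∈ S → ‖X p - (b.1 : ℚ_[(p : ℕ)])‖ ≤ (((p : ℕ) : ℝ) ^ N)⁻¹ ∧
        ‖Y p - (b.2 : ℚ_[(p : ℕ)])‖ ≤ (((p : ℕ) : ℝ) ^ N)⁻¹) ∧
      (∀ k, ¬ (((p : ℕ) : ℤ) ^ (3 * n p + 12) ∣ fm (c k) b.1 b.2)) ∧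
      PSG T c ((b.1 : ℤ) : ℚ_[(p : ℕ)]) ((b.2 : ℤ) : ℚ_[(p : ℕ)]) := by
    intro p
    by_cases hp : (p : ℕ) ≤ W
    · obtain ⟨b₀, b₁, hb⟩ := h1 p hp
      exact ⟨(b₀, b₁), fun _ => hb⟩
    · exact ⟨(0, 0), fun h2 => absurd h2 hp⟩
  choose b' hb' using h1'
  obtain ⟨b, hbb⟩ : ∃ b : ℕ → ℤ × ℤ, ∀ (p : ℕ) (hp : p.Prime), b p = b' ⟨p, hp⟩ :=
    ⟨fun p => if hp : p.Prime then b' ⟨p, hp⟩ else (0, 0), fun p hp => by simp [hp]⟩
  set s : Finset ℕ := (Icc 1 W).filter Nat.Prime with hs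
  have hco : ∀ p ∈ s, ∀ q ∈ s, p ≠ q →
      IsCoprime ((p : ℤ) ^ (3 * n p + 14)) ((q : ℤ) ^ (3 * n q + 14)) := by
    intro p hp q hq hpq
    apply IsCoprime.pow
    exact Nat.isCoprime_iff_coprime.2 ((Nat.coprime_primes (Finset.mem_filter.1 hp).2
      (Finset.mem_filter.1 hq).2).2 hpq)
  obtain ⟨a₀, ha₀⟩ := crt s (fun p => (p : ℤ) ^ (3 * n p + 14)) hco (fun p => (b p).1)
  obtain ⟨a₁, ha₁⟩ := crt s (fun p => (p : ℤ) ^ (3 * n p + 14)) hco (fun p => (b p).2)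
  have hmem : ∀ p : ℕ, p.Prime → p ≤ W → p ∈ s := fun p hp hpW =>
    Finset.mem_filter.2 ⟨Finset.mem_Icc.2 ⟨hp.one_le, hpW⟩, hp⟩
  have hMs : ∀ p : ℕ, p.Prime → p ∣ M → p ≤ W := by
    intro p hp hpM
    rw [hM] at hpM
    obtain ⟨q, hq, hpq⟩ := (Prime.dvd_finset_prod_iff hp.prime _).1 hpM
    have h3 := (Nat.prime_dvd_prime_iff_eq hp (Finset.mem_filter.1 hq).2).1 (hp.dvd_of_dvd_pow hpq)
    rw [h3]
    exact (Finset.mem_Icc.1 (Finset.mem_filter.1 hq).1).2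
  have hM0 : M ≠ 0 := by
    rw [hM]
    exact Finset.prod_ne_zero_iff.2 fun q hq => pow_ne_zero _ (Finset.mem_filter.1 hq).2.ne_zero
  have hval : ∀ p : ℕ, p.Prime → p ≤ W → padicValNat p M = 3 * n p + 14 := by
    intro p hp hpW
    haveI := Fact.mk hp
    have hps := hmem p hp hpW
    rw [hM, ← Finset.mul_prod_erase s _ hps, padicValNat.mul (pow_ne_zero _ hp.ne_zero)
      (Finset.prod_ne_zero_iff.2 fun q hq => pow_ne_zero _
        (Finset.mem_filter.1 (Finset.mem_of_mem_erase hq)).2.ne_zero), padicValNat.prime_pow]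
    have : padicValNat p (∏ q ∈ s.erase p, q ^ (3 * n q + 14)) = 0 := by
      apply padicValNat.eq_zero_of_not_dvd
      intro hd
      obtain ⟨q, hq, hpq⟩ := (Prime.dvd_finset_prod_iff hp.prime _).1 hd
      exact (Finset.ne_of_mem_erase hq) ((Nat.prime_dvd_prime_iff_eq hp
        (Finset.mem_filter.1 (Finset.mem_of_mem_erase hq)).2).1 (hp.dvd_of_dvd_pow hpq)).symm
    rw [this]
  have hdM : ∀ p : ℕ, p.Prime → p ≤ W → ((p : ℤ) ^ (3 * n p + 14)) ∣ (M : ℤ) := by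
    intro p hp hpW
    have h3 : p ^ (3 * n p + 14) ∣ M := by
      rw [hM]
      exact Finset.dvd_prod_of_mem (fun p => p ^ (3 * n p + 14)) (hmem p hp hpW)
    exact_mod_cast Int.natCast_dvd_natCast.2 h3
  refine ⟨a₀, a₁, ?_, ?_⟩
  · intro p hpS
    have hpW := hS p hpS
    obtain ⟨h3, -, -⟩ := hb' p hpW
    obtain ⟨h4, h5⟩ := h3 hpS
    have hbp : b' p = b (p : ℕ) := (hbb p p.2).symm
    rw [hbp] at h4 h5
    have hNn : N ≤ 3 * n p + 14 := by have := hN p; omega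
    have gen : ∀ (Z : ℚ_[(p : ℕ)]) (u v : ℤ), ‖Z - (u : ℚ_[(p : ℕ)])‖ ≤ (((p : ℕ) : ℝ) ^ N)⁻¹ →
        (((p : ℕ) : ℤ) ^ (3 * n p + 14)) ∣ v - u →
        ‖Z - (v : ℚ_[(p : ℕ)])‖ ≤ (((p : ℕ) : ℝ) ^ N)⁻¹ := by
      intro Z u v h6 h7
      have h8 : Z - (v : ℚ_[(p : ℕ)]) = (Z - u) + ((u - v : ℤ) : ℚ_[(p : ℕ)]) := by push_cast; ring
      rw [h8]
      refine (Padic.nonarchimedean _ _).trans (max_le h6 ?_)
      refine norm_int_le _ _ ?_
      have h9 : (((p : ℕ) : ℤ) ^ N) ∣ v - u := (pow_dvd_pow _ hNn).trans h7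
      have h10 : u - v = -(v - u) := by ring
      rw [h10]
      exact (dvd_neg).2 h9
    exact ⟨gen _ _ _ h4 (ha₀ p (hmem p p.2 hpW)), gen _ _ _ h5 (ha₁ p (hmem p p.2 hpW))⟩
  · intro γ hγ
    have hcong : ∀ p : ℕ, p.Prime → p ≤ W → ∀ k, ((p : ℤ) ^ (3 * n p + 14)) ∣
        fm (γ k) a₀ a₁ - fm (c k) (b p).1 (b p).2 := by
      intro p hp hpW k
      refine fm_modEq _ _ _ _ _ _ _ (fun j => ?_) (ha₀ p (hmem p hp hpW)) (ha₁ p (hmem p hp hpW))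
      have h3 := (hdM p hp hpW).trans (hγ k j)
      have h4 : γ k j - c k j = -(c k j - γ k j) := by ring
      rw [h4]
      exact (dvd_neg).2 h3
    constructor
    · intro p hp hpM
      have hpW := hMs p hp hpM
      rw [hval p hp hpW]
      refine ⟨by omega, fun k hk => ?_⟩
      obtain ⟨-, h3, -⟩ := hb' ⟨p, hp⟩ hpW
      rw [← hbb p hp] at h3
      apply h3 k
      have h4 : 3 * n p + 14 - 3 + 1 = 3 * n p + 12 := by omega
      rw [h4] at hk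
      have h5 : (p : ℤ) ^ (3 * n p + 12) ∣ (p : ℤ) ^ (3 * n p + 14) := pow_dvd_pow _ (by omega)
      have h6 := dvd_sub hk (h5.trans (hcong p hp hpW k))
      simpa using h6
    · intro p hpF hpM
      have hp := hpF.out
      have hpW := hMs p hp hpM
      obtain ⟨-, h3, h4⟩ := hb' ⟨p, hp⟩ hpW
      rw [← hbb p hp] at h3 h4
      have h4' : PSG T c (((b p).1 : ℤ) : ℚ_[p]) (((b p).2 : ℤ) : ℚ_[p]) := h4
      have h5 : ∀ k, ∃ z : ℚ_[p], z ≠ 0 ∧ ((fm (γ k) a₀ a₁ : ℤ) : ℚ_[p]) =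
          ((fm (c k) (b p).1 (b p).2 : ℤ) : ℚ_[p]) * z ^ 2 := fun k =>
        sq_close _ _ (3 * n p) (h3 k) (hcong p hp hpW k)
      choose z hz hz' using h5
      refine psg_tr T c γ _ _ _ _ h4' z hz fun k => ?_
      rw [fm_cast, fm_cast, hz' k]

end Pool.Agent.U863.DQ
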